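import Pool.Agent.Q80.AC.Stm2

/-!
# Project AC (helper80), job U0: a function in `A(H)` separated from `1` off every neighbourhood of `e`
-/

set_option autoImplicit false

namespace Q129.AC.U0

open MeasureTheory Topology Filter
open scoped ENNReal NNReal ComplexConjugate
open Pool.Agent.Q80.AC

section

variable {H : Type} [Group H] [TopologicalSpace H] [IsTopologicalGroup H] [LocallyCompactSpace H]
  [SecondCountableTopology H] [T2Space H] [MeasurableSpace H] [BorelSpace H]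

/-- the product of the two indicator functions -/
noncomputable def FF (E : Set H) (c : ℝ) (s x : H) : ℝ :=
  (E.indicator (fun _ => c) x) * (E.indicator (fun _ => c) (s⁻¹ * x))

theorem inner_ind (m : Measure H) [m.IsHaarMeasure] (E : Set H) (hE : MeasurableSet E) (hm : m E ≠ ⊤)
    (c : ℝ) (s : H) :
    inner ℂ (indicatorConstLp 2 hE hm (c : ℂ)) (lam m s (indicatorConstLp 2 hE hm (c : ℂ))) =
      ((∫ x, FF E c s x ∂m : ℝ) : ℂ) := by
  rw [L2.inner_def]
  have h1 : (indicatorConstLp 2 hE hm (c : ℂ) : H → ℂ) =ᵐ[m] E.indicator fun _ => (c : ℂ) :=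
    indicatorConstLp_coeFn
  have h2 : (lam m s (indicatorConstLp 2 hE hm (c : ℂ)) : H → ℂ) =ᵐ[m]
      (indicatorConstLp 2 hE hm (c : ℂ) : H → ℂ) ∘ fun x => s⁻¹ * x :=
    Lp.coeFn_compMeasurePreserving _ (measurePreserving_mul_left m s⁻¹)
  have h3 : (indicatorConstLp 2 hE hm (c : ℂ) : H → ℂ) ∘ (fun x => s⁻¹ * x) =ᵐ[m]
      (E.indicator fun _ => (c : ℂ)) ∘ fun x => s⁻¹ * x :=
    (measurePreserving_mul_left m s⁻¹).quasiMeasurePreserving.ae_eq_comp h1
  have e0 : ((∫ x, FF E c s x ∂m : ℝ) : ℂ) = ∫ x, ((FF E c s x : ℝ) : ℂ) ∂m :=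
    integral_complex_ofReal.symm
  rw [e0]
  refine integral_congr_ae ?_
  filter_upwards [h1, h2, h3] with x e1 e2 e3
  rw [e1, e2, e3]
  unfold FF
  by_cases ha : x ∈ E <;> by_cases hb : s⁻¹ * x ∈ E
  · simp [ha, hb]
    rw [← Complex.ofReal_pow, sq_abs, Complex.ofReal_pow, sq]
  · simp [ha, hb]
  · simp [ha, hb]
  · simp [ha, hb]

theorem exists_xi (m : Measure H) [m.IsHaarMeasure] (W : Set H) (hW : W ∈ 𝓝 (1 : H)) :
    ∃ ξ : Lp ℂ 2 m, ‖ξ‖ = 1 ∧ (∀ s, ∃ r : ℝ, 0 ≤ r ∧ inner ℂ ξ (lam m s ξ) = (r : ℂ)) ∧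
      inner ℂ ξ (lam m 1 ξ) = (1 : ℂ) ∧ ∀ s, s ∉ W → inner ℂ ξ (lam m s ξ) = (0 : ℂ) := by
  obtain ⟨V, hV, hVW⟩ := exists_nhds_split_inv hW
  obtain ⟨K, hK, hK1⟩ := exists_compact_mem_nhds (1 : H)
  obtain ⟨E, hEdef⟩ : ∃ E : Set H, E = interior (V ∩ K) := ⟨_, rfl⟩
  have hEo : IsOpen E := by rw [hEdef]; exact isOpen_interior
  have h1E : (1 : H) ∈ E := by
    rw [hEdef, mem_interior_iff_mem_nhds]
    exact inter_mem hV hK1
  have hEV : E ⊆ V := by
    rw [hEdef]
    exact interior_subset.trans Set.inter_subset_left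
  have hEK : E ⊆ K := by
    rw [hEdef]
    exact interior_subset.trans Set.inter_subset_right
  have hm : m E ≠ ⊤ := ((measure_mono hEK).trans_lt hK.measure_lt_top).ne
  have hpos : 0 < m.real E := by
    rw [Measure.real, ENNReal.toReal_pos_iff]
    exact ⟨hEo.measure_pos m ⟨1, h1E⟩, lt_top_iff_ne_top.2 hm⟩
  obtain ⟨c, hc⟩ : ∃ c : ℝ, c = (Real.sqrt (m.real E))⁻¹ := ⟨_, rfl⟩
  have hc0 : 0 < c := by rw [hc]; positivity
  have hc2 : m.real E * (c * c) = 1 := by
    rw [hc, ← mul_inv, Real.mul_self_sqrt hpos.le, mul_inv_cancel₀ hpos.ne']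
  have hind : ∀ x, 0 ≤ E.indicator (fun _ => c) x := fun x =>
    Set.indicator_nonneg (fun _ _ => hc0.le) x
  refine ⟨indicatorConstLp 2 hEo.measurableSet hm (c : ℂ), ?_, ?_, ?_, ?_⟩
  · rw [norm_indicatorConstLp (by norm_num) (by norm_num), Complex.norm_real, Real.norm_eq_abs,
      abs_of_pos hc0, ENNReal.toReal_ofNat, ← Real.sqrt_eq_rpow, hc,
      inv_mul_cancel₀ (Real.sqrt_pos.2 hpos).ne']
  · intro s
    refine ⟨_, ?_, inner_ind m E hEo.measurableSet hm c s⟩
    exact integral_nonneg fun x => mul_nonneg (hind _) (hind _)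
  · rw [inner_ind]
    have h5 : ∀ x, FF E c 1 x = E.indicator (fun _ => c * c) x := by
      intro x
      unfold FF
      by_cases ha : x ∈ E
      · simp [ha]
      · simp [ha]
    simp_rw [h5]
    rw [integral_indicator_const _ hEo.measurableSet, smul_eq_mul, hc2, Complex.ofReal_one]
  · intro s hs
    rw [inner_ind]
    have h5 : ∀ x, FF E c s x = 0 := by
      intro x
      unfold FF
      by_cases ha : x ∈ E
      · by_cases hb : s⁻¹ * x ∈ E
        · exfalso
          apply hs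
          have h6 := hVW x (hEV ha) (s⁻¹ * x) (hEV hb)
          have h7 : x / (s⁻¹ * x) = s := by
            rw [div_eq_mul_inv, mul_inv_rev, inv_inv, mul_inv_cancel_left]
          rwa [h7] at h6
        · simp [hb]
      · simp [ha]
    simp_rw [h5]
    simp

end

/-- the weights -/
noncomputable def w (j : ℕ) : ℝ := (1 / 2) ^ (j + 1)

theorem w_pos (j : ℕ) : 0 < w j := by unfold w; positivity

theorem w_sum : HasSum w 1 := by
  have h := hasSum_geometric_two.mul_right (1 / 2 : ℝ)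
  have e : (2 : ℝ) * (1 / 2) = 1 := by norm_num
  rw [e] at h
  have e2 : w = fun n : ℕ => (1 / 2 : ℝ) ^ n * (1 / 2) := by
    funext n
    unfold w
    rw [pow_succ]
  rw [e2]
  exact h

theorem t_U0 (h1 : S_COEF) (h2 : S_PDLIM) : S_U0 := by
  intro H _ _ _ _ _ _ _ _ m _
  obtain ⟨hP1, hP2, hP3, hP4⟩ := h2 H
  obtain ⟨V, hV⟩ := (𝓝 (1 : H)).exists_antitone_basis
  choose ξ hξ1 hξ2 hξ3 hξ4 using fun j : ℕ => exists_xi m (V j) (hV.1.mem_of_mem trivial)
  choose r hr0 hr using hξ2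
  have hr1 : ∀ j s, r j s ≤ 1 := by
    intro j s
    have h3 := (h1 H m (ξ j) (ξ j)).2.2 s
    rw [hξ1 j, mul_one, hr j s, Complex.norm_real, Real.norm_eq_abs, abs_of_nonneg (hr0 j s)] at h3
    exact h3
  have hwr : ∀ s, Summable fun j => w j * r j s := fun s =>
    Summable.of_nonneg_of_le (fun j => mul_nonneg (w_pos j).le (hr0 j s))
      (fun j => mul_le_of_le_one_right (w_pos j).le (hr1 j s)) w_sum.summable
  have hu : ∀ s, (∑' j, ((w j : ℝ) : ℂ) * inner ℂ (ξ j) (lam m s (ξ j))) =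
      ((∑' j, w j * r j s : ℝ) : ℂ) := by
    intro s
    rw [Complex.ofReal_tsum]
    refine tsum_congr fun j => ?_
    rw [hr j s, Complex.ofReal_mul]
  refine ⟨fun s => ∑' j, ((w j : ℝ) : ℂ) * inner ℂ (ξ j) (lam m s (ξ j)), ?_, ?_, ?_, ?_, ?_, ?_⟩
  · refine ⟨fun j => ((w j : ℝ) : ℂ) • ξ j, ξ, ?_, ?_, ?_⟩
    · have : (fun j => ‖((w j : ℝ) : ℂ) • ξ j‖ * ‖ξ j‖) = w := by
        funext j
        rw [norm_smul, hξ1 j, mul_one, mul_one, Complex.norm_real, Real.norm_eq_abs, abs_of_pos (w_pos j)]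
      rw [this]
      exact w_sum.summable
    · have : (fun j => ‖((w j : ℝ) : ℂ) • ξ j‖ * ‖ξ j‖) = w := by
        funext j
        rw [norm_smul, hξ1 j, mul_one, mul_one, Complex.norm_real, Real.norm_eq_abs, abs_of_pos (w_pos j)]
      rw [this, w_sum.tsum_eq]
    · intro s
      refine tsum_congr fun j => ?_
      rw [map_smul, inner_smul_right]
  · refine hP4 (fun n s => ∑ j ∈ Finset.range n, ((w j : ℝ) : ℂ) * inner ℂ (ξ j) (lam m s (ξ j))) _ ?_ ?_
    · intro n
      induction n with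
      | zero =>
        have h5 := hP2 0 _ le_rfl hP1
        simpa using h5
      | succ n ih =>
        simp_rw [Finset.sum_range_succ]
        exact hP3 _ _ ih (hP2 (w n) _ (w_pos n).le (h1 H m (ξ n) (ξ n)).1)
    · intro s
      have h5 : HasSum (fun j => ((w j : ℝ) : ℂ) * inner ℂ (ξ j) (lam m s (ξ j)))
          (∑' j, ((w j : ℝ) : ℂ) * inner ℂ (ξ j) (lam m s (ξ j))) := by
        refine Summable.hasSum ?_
        have h6 : (fun j => ((w j : ℝ) : ℂ) * inner ℂ (ξ j) (lam m s (ξ j))) =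
            fun j => ((w j * r j s : ℝ) : ℂ) := by
          funext j
          rw [hr j s, Complex.ofReal_mul]
        rw [h6]
        exact (Complex.hasSum_ofReal.2 (hwr s).hasSum).summable
      exact h5.tendsto_sum_nat
  · refine continuous_tsum (u := w) ?_ w_sum.summable ?_
    · intro j
      exact continuous_const.mul (h1 H m (ξ j) (ξ j)).2.1
    · intro j s
      rw [norm_mul, hr j s, Complex.norm_real, Complex.norm_real, Real.norm_eq_abs, Real.norm_eq_abs,
        abs_of_pos (w_pos j), abs_of_nonneg (hr0 j s)]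
      exact mul_le_of_le_one_right (w_pos j).le (hr1 j s)
  · have h5 : (fun j => ((w j : ℝ) : ℂ) * inner ℂ (ξ j) (lam m 1 (ξ j))) = fun j => ((w j : ℝ) : ℂ) := by
      funext j
      rw [hξ3 j, mul_one]
    simp only [h5]
    rw [← Complex.ofReal_tsum, w_sum.tsum_eq, Complex.ofReal_one]
  · intro s
    simp only [hu]
    refine ⟨Complex.ofReal_im _, ?_, ?_⟩
    · rw [Complex.ofReal_re]
      exact tsum_nonneg fun j => mul_nonneg (w_pos j).le (hr0 j s)
    · rw [Complex.ofReal_re]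
      calc ∑' j, w j * r j s ≤ ∑' j, w j :=
            (hwr s).tsum_le_tsum (fun j => mul_le_of_le_one_right (w_pos j).le (hr1 j s)) w_sum.summable
        _ = 1 := w_sum.tsum_eq
  · intro W hW
    obtain ⟨j, -, hj⟩ := hV.1.mem_iff.1 hW
    refine ⟨w j, w_pos j, fun s hs => ?_⟩
    simp only [hu, Complex.ofReal_re]
    have h5 : r j s = 0 := by
      have h6 := hξ4 j s fun h => hs (hj h)
      rw [hr j s] at h6
      exact_mod_cast h6
    have h7 : HasSum (fun i => w i - w i * r i s) (1 - ∑' i, w i * r i s) := w_sum.sub (hwr s).hasSum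
    have h8 := le_hasSum h7 j fun i _ => by
      have := mul_le_of_le_one_right (w_pos i).le (hr1 i s)
      linarith
    rw [h5, mul_zero, sub_zero] at h8
    linarith

end Q129.AC.U0
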